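import Pool.Agent.H21.SumDiff

set_option autoImplicit false

namespace Pool.Agent.Results.MP_ee2194_co.ConstantFactor
open Pool.Agent.H21.SumDiff

theorem result (β : ℝ) (hβ : β < 1) (N : ℕ) : ∃ (V : Type) (_ : Finite V) (G : SimpleGraph V),
    (∃ u v, G.Adj u v) ∧ N ≤ sm G ∧ (1 + β) * (⌈(sm G : ℚ) / 2⌉ : ℤ) ≤ (df G : ℝ) := by
  obtain ⟨M, hM⟩ := exists_nat_ge (1 / (1 - β))
  obtain ⟨V, hV, G, -, h2, h3, h4⟩ := main (2 * (M + N) + 1)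
  refine ⟨V, hV, G, h2, by omega, ?_⟩
  have : ⌈(sm G : ℚ) / 2⌉ = M + N + 1 := by
    rw [h3, show ((2 * (M + N) + 1 + 1 : ℕ) : ℚ) / 2 = ((M + N + 1 : ℤ) : ℚ) by push_cast; ring,
      Int.ceil_intCast]
  rw [this]
  have h5 : ((2 * (M + N) + 1 : ℕ) : ℝ) ≤ df G := by exact_mod_cast h4
  rw [div_le_iff₀ (by linarith)] at hM
  have h6 : (0 : ℝ) ≤ N * (1 - β) := mul_nonneg (by positivity) (by linarith)
  push_cast at h5 ⊢
  nlinarith

end Pool.Agent.Results.MP_ee2194_co.ConstantFactor
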